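import Pool.Agent.H62.Et.Desc
import Pool.Agent.H62.Et.Unr

/-!
# Et Final: smooth projective surfaces of general type with a finite unramified covering
-/

set_option autoImplicit false

open Topology Filter MvPolynomial

noncomputable section

namespace Pool.Agent.H62.Et

open Pool.Agent.H17 (PN VanishesAt ZariskiClosedIn HolomorphicInto puncturedDisc)
open Pool.Agent.H62.FC (Homog)
open Pool.Agent.H17LG.Variety (FunField IsLogGeneralType)
open Pool.Agent.H13.SM (conTan)
open Pool.Agent.H17EF (projVar)
open Pool.Agent.H7.Bir (GGL)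

variable {N M : ℕ}

/-- **Unramified coverings.**  Let `X` (given by `P`) and `X'` (given by `P'`) be smooth projective surfaces and let `p : X' → X` be a surjective
regular map with injective differential.  If `X` is of general type and the nonconstant entire curves of `X'` lie in a proper closed subset, then
`X` has the properties of the conjecture, the exceptional set is the closure of the union of the nonconstant entire curves, and the estimate of the
Kobayashi pseudometric holds (`GGLK`). -/
theorem unramified_four {P : Ideal (MvPolynomial (Fin (N + 1)) ℂ)} [P.IsPrime] {P' : Ideal (MvPolynomial (Fin (M + 1)) ℂ)} [P'.IsPrime]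
    (hP : Homog P) {z : Fin 2 → FunField P} (hz : IsTranscendenceBasis ℂ z)
    (hsm : ∀ y : Fin (N + 1) → ℂ, y ≠ 0 → (∀ Q ∈ P, eval y Q = 0) → Module.finrank ℂ (conTan P y) ≤ 3)
    (hgt : IsLogGeneralType (K := FunField P) (k := 2) fun _ => False) (hP' : Homog P')
    {z' : Fin 2 → FunField P'} (hz' : IsTranscendenceBasis ℂ z')
    (hsm' : ∀ y : Fin (M + 1) → ℂ, y ≠ 0 → (∀ Q ∈ P', eval y Q = 0) → Module.finrank ℂ (conTan P' y) ≤ 3)
    {p : PN M → PN N} (hp : IsUnramified P P' p) {Ξ' : Set (PN M)}
    (hΞ' : ZariskiClosedIn (projVar P') Ξ') (hne' : Ξ' ≠ projVar P')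
    (hbr' : ∀ g : ℂ → PN M, HolomorphicInto g Set.univ → (∀ z, g z ∈ projVar P') → (∃ z w, g z ≠ g w) → ∀ z, g z ∈ Ξ') :
    GGLK P :=
  etale_four hP hz hsm hgt hP' ⟨z', hz'⟩ (isEtale_of_isUnramified hP hP' hz hz' hsm hsm' hp) hΞ' hne' hbr'

end Pool.Agent.H62.Et
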