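import Pool.Agent.H17EF.Bridge
import Pool.Agent.H7.Bir.Main

/-!
# Et Defs: finite etale coverings of projective varieties
-/

set_option autoImplicit false

open Topology Filter MvPolynomial

noncomputable section

namespace Pool.Agent.H62.Et

open Pool.Agent.H17 (PN VanishesAt HolomorphicInto)
open Pool.Agent.H17EF (projVar LE)
open Pool.Agent.H7.Bir (vals rmap)
open Pool.Agent.H62.EF (MN pr)
open Pool.Agent.H13.SM (conTan)

variable {N M : ℕ}

/-- `p` is a finite etale covering `X' → X` of projective varieties, given by the ideals `P'` and `P`: it is a surjective regular map which is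
locally injective and has a local holomorphic section through every point of `X'`. -/
structure IsEtale (P : Ideal (MvPolynomial (Fin (N + 1)) ℂ)) (P' : Ideal (MvPolynomial (Fin (M + 1)) ℂ)) (p : PN M → PN N) : Prop where
  maps : ∀ y ∈ projVar P', p y ∈ projVar P
  surj : ∀ x ∈ projVar P, ∃ y ∈ projVar P', p y = x
  regular : ∀ y ∈ projVar P', ∃ (D : ℕ) (γ : Fin (N + 1) → MvPolynomial (Fin (M + 1)) ℂ), (∀ i, (γ i).IsHomogeneous D) ∧
    vals γ y.rep ≠ 0 ∧ ∀ y' ∈ projVar P', vals γ y'.rep ≠ 0 → p y' = rmap γ y'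
  locInj : ∀ (y : Fin (M + 1) → ℂ) (hy : y ≠ 0), Projectivization.mk ℂ y hy ∈ projVar P' → ∀ᶠ q in 𝓝 (y, y), ∀ (h : q.1 ≠ 0) (h' : q.2 ≠ 0),
    Projectivization.mk ℂ q.1 h ∈ projVar P' → Projectivization.mk ℂ q.2 h' ∈ projVar P' →
      p (Projectivization.mk ℂ q.1 h) = p (Projectivization.mk ℂ q.2 h') → Projectivization.mk ℂ q.1 h = Projectivization.mk ℂ q.2 h'
  locSec : ∀ (y : Fin (M + 1) → ℂ) (hy : y ≠ 0), Projectivization.mk ℂ y hy ∈ projVar P' →
    ∃ (x : Fin (N + 1) → ℂ) (hx : x ≠ 0) (τ : (Fin (N + 1) → ℂ) → Fin (M + 1) → ℂ), p (Projectivization.mk ℂ y hy) = Projectivization.mk ℂ x hx ∧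
      AnalyticAt ℂ τ x ∧ τ x = y ∧ ∀ᶠ x' in 𝓝 x, ∀ h : x' ≠ 0, Projectivization.mk ℂ x' h ∈ projVar P →
        ∃ h' : τ x' ≠ 0, Projectivization.mk ℂ (τ x') h' ∈ projVar P' ∧ p (Projectivization.mk ℂ (τ x') h') = Projectivization.mk ℂ x' h

/-- the derivative of the forms `γ i` at `y` in the direction `v` -/
def dvals (γ : Fin (N + 1) → MvPolynomial (Fin (M + 1)) ℂ) (y v : Fin (M + 1) → ℂ) : Fin (N + 1) → ℂ :=
  fun i => ∑ j, eval y (pderiv j (γ i)) * v j

/-- `p` is a surjective regular map `X' → X` of projective varieties whose differential is injective at every point of `X'` (for smooth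
varieties of the same dimension: a finite etale covering). -/
structure IsUnramified (P : Ideal (MvPolynomial (Fin (N + 1)) ℂ)) (P' : Ideal (MvPolynomial (Fin (M + 1)) ℂ)) (p : PN M → PN N) : Prop where
  /-- `p` maps `X'` into `X` -/
  maps : ∀ y ∈ projVar P', p y ∈ projVar P
  /-- `p` maps `X'` onto `X` -/
  surj : ∀ x ∈ projVar P, ∃ y ∈ projVar P', p y = x
  /-- near every point of `X'` the map `p` is given by forms of the same degree, and a tangent vector `v` of the affine cone over `X'` which is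
  mapped to a multiple of the image of the point is a multiple of the point -/
  regular : ∀ (y : Fin (M + 1) → ℂ) (hy : y ≠ 0), Projectivization.mk ℂ y hy ∈ projVar P' →
    ∃ (D : ℕ) (γ : Fin (N + 1) → MvPolynomial (Fin (M + 1)) ℂ), (∀ i, (γ i).IsHomogeneous D) ∧ vals γ y ≠ 0 ∧
      (∀ (y' : Fin (M + 1) → ℂ) (hy' : y' ≠ 0) (h : vals γ y' ≠ 0), Projectivization.mk ℂ y' hy' ∈ projVar P' →
        p (Projectivization.mk ℂ y' hy') = Projectivization.mk ℂ (vals γ y') h) ∧
      ∀ v ∈ conTan P' y, ∀ c : ℂ, dvals γ y v = c • vals γ y → ∃ a : ℂ, v = a • y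

/-- the embedding of the projective space in the space of matrices -/
def pn (x : PN N) : MN N := pr ((LE N) x.rep)

end Pool.Agent.H62.Et
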