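import Pool.Agent.H62.Et.Main

/-!
# Et Desc: descent of the properties of the Green–Griffiths–Lang conjecture along a dominant rational map of surfaces to which the entire curves lift
-/

set_option autoImplicit false

open Topology Filter MvPolynomial

noncomputable section

namespace Pool.Agent.H62.Et

open Pool.Agent.H17 (PN VanishesAt ZariskiClosedIn HolomorphicInto puncturedDisc vanishesAt_mk_iff)
open Pool.Agent.H62.FC (Homog)
open Pool.Agent.H17LG.Variety (FunField IsLogGeneralType)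
open Pool.Agent.H13.SM (conTan)
open Pool.Agent.H13.OT (OrderTwo)
open Pool.Agent.H17EF (projVar exists_form_of_ne exists_point)
open Pool.Agent.H7.Bir (GGL vals rmap rmap_mk vanishesAt_rmap eval_comp)

variable {N M : ℕ}

/-- The set where a form does not vanish is open along a holomorphic map. -/
theorem eventually_not_vanishesAt {g : ℂ → PN M} {z₀ : ℂ} (hg : ∃ φ : ℂ → Fin (M + 1) → ℂ, AnalyticAt ℂ φ z₀ ∧
    ∀ᶠ z in 𝓝 z₀, ∃ h : φ z ≠ 0, g z = Projectivization.mk ℂ (φ z) h) {R : MvPolynomial (Fin (M + 1)) ℂ} {n : ℕ} (hR : R.IsHomogeneous n)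
    (h : ¬ VanishesAt R (g z₀)) : ∀ᶠ z in 𝓝 z₀, ¬ VanishesAt R (g z) := by
  obtain ⟨φ, hφ, he⟩ := hg
  have hcont : ContinuousAt (fun z => eval (φ z) R) z₀ := by
    have h4 : AnalyticAt ℂ (fun w => MvPolynomial.aeval (φ w) R) z₀ :=
      AnalyticAt.aeval_mvPolynomial (fun i => analyticAt_pi_iff.mp hφ i) _
    exact h4.continuousAt
  have h0 : eval (φ z₀) R ≠ 0 := by
    obtain ⟨h4, h5⟩ := he.self_of_nhds
    rw [h5, vanishesAt_mk_iff hR] at h
    exact h
  filter_upwards [he, hcont.eventually_ne h0] with z h4 h5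
  obtain ⟨h6, h7⟩ := h4
  rw [h7, vanishesAt_mk_iff hR]
  exact h5

/-- **Descent.**  Let `X` (given by `P`) be a projective surface, and let `γ` be a dominant rational map to `X` from a projective surface `X'` (given
by `P'`), whose nonconstant entire curves lie in a proper closed subset.  Suppose that every nonconstant entire curve `f` in `X` with
`T_f(r) = O(r^2)` satisfies `B(f) = 0` or is the image of an entire curve in `X'`.  Then these `f` are in a proper closed subset of `X`. -/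
theorem desc_form {P : Ideal (MvPolynomial (Fin (N + 1)) ℂ)} [P.IsPrime] {P' : Ideal (MvPolynomial (Fin (M + 1)) ℂ)} [P'.IsPrime]
    {z : Fin 2 → FunField P} (hz : IsTranscendenceBasis ℂ z) (hP' : Homog P')
    (hz' : ∃ z' : Fin 2 → FunField P', IsTranscendenceBasis ℂ z') {D : ℕ} {γ : Fin (N + 1) → MvPolynomial (Fin (M + 1)) ℂ}
    (hγ : ∀ i, (γ i).IsHomogeneous D) (hdom : ∀ n Q, Q.IsHomogeneous n → (aeval γ Q ∈ P' ↔ Q ∈ P))
    {B : MvPolynomial (Fin (N + 1)) ℂ} {b : ℕ} (hB : B.IsHomogeneous b) (hBP : B ∉ P) {Ξ' : Set (PN M)}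
    (hΞ' : ZariskiClosedIn (projVar P') Ξ') (hne' : Ξ' ≠ projVar P')
    (hbr' : ∀ g : ℂ → PN M, HolomorphicInto g Set.univ → (∀ z, g z ∈ projVar P') → (∃ z w, g z ≠ g w) → ∀ z, g z ∈ Ξ')
    (hlift : ∀ f : ℂ → PN N, HolomorphicInto f Set.univ → OrderTwo f → (∀ z, f z ∈ projVar P) → (∃ z w, f z ≠ f w) →
      (∀ z, VanishesAt B (f z)) ∨ ∃ g : ℂ → PN M, HolomorphicInto g Set.univ ∧ (∀ z, g z ∈ projVar P') ∧ (∃ z, vals γ (g z).rep ≠ 0) ∧
        ∀ z, vals γ (g z).rep ≠ 0 → f z = rmap γ (g z)) :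
    ∃ (T : MvPolynomial (Fin (N + 1)) ℂ) (n : ℕ), T.IsHomogeneous n ∧ T ∉ P ∧ ∀ f : ℂ → PN N, HolomorphicInto f Set.univ → OrderTwo f →
      (∀ z, f z ∈ projVar P) → (∃ z w, f z ≠ f w) → ∀ z, VanishesAt T (f z) := by
  obtain ⟨R', n', hR', hRP', hRΞ⟩ := exists_form_of_ne hΞ' hne'
  obtain ⟨R, n, hR, hRP, hRv⟩ := Pool.Agent.H19OL.exists_norm_form ⟨z, hz⟩ hz' hγ hdom hR' hRP'
  have hT : (R * B).IsHomogeneous (n + b) := hR.mul hB
  have hTP : R * B ∉ P := fun h => ((inferInstance : P.IsPrime).mem_or_mem h).elim hRP hBP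
  refine ⟨R * B, n + b, hT, hTP, fun f hf hf2 hfX hfn w => ?_⟩
  rcases hlift f hf hf2 hfX hfn with hBf | ⟨g, hg, hgX, ⟨z₀, hz₀⟩, hgf⟩
  · have h1 := hBf w
    unfold VanishesAt at h1 ⊢
    rw [map_mul, h1, mul_zero]
  · have hgn : ∃ z w, g z ≠ g w := by
      by_contra hcon
      push Not at hcon
      obtain ⟨u, v, huv⟩ := hfn
      apply huv
      rw [hgf u (by rw [hcon u z₀]; exact hz₀), hgf v (by rw [hcon v z₀]; exact hz₀), hcon u v]
    obtain ⟨j, hj⟩ : ∃ j, ¬ VanishesAt (γ j) (g z₀) := by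
      by_contra hcon
      push Not at hcon
      exact hz₀ (funext hcon)
    have h1 : ∀ᶠ z in 𝓝 z₀, ∀ Q ∈ ({R} : Set (MvPolynomial (Fin (N + 1)) ℂ)), VanishesAt Q (f z) := by
      filter_upwards [eventually_not_vanishesAt (hg z₀ (Set.mem_univ _)) (hγ j) hj] with z hz Q hQ
      rw [Set.mem_singleton_iff.1 hQ]
      have hv : vals γ (g z).rep ≠ 0 := fun h => hz (congrFun h j)
      rw [hgf z hv]
      unfold Pool.Agent.H7.Bir.rmap
      rw [dif_pos hv, vanishesAt_mk_iff hR]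
      refine hRv _ (g z).rep_nonzero (fun S hS => ?_) (hRΞ _ (hbr' g hg hgX hgn z))
      rw [← MvPolynomial.sum_homogeneousComponent S, map_sum]
      exact Finset.sum_eq_zero fun i _ => hgX z _ (hP' S hS i) i (homogeneousComponent_isHomogeneous i S)
    have h2 := Pool.Agent.H36.BP.vanish_identity isPreconnected_univ hf (S := {R})
      (fun Q hQ => by rw [Set.mem_singleton_iff.1 hQ]; exact ⟨n, hR⟩) (Set.mem_univ z₀) h1 w (Set.mem_univ w) R rfl
    unfold VanishesAt at h2 ⊢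
    rw [map_mul, h2, zero_mul]

/-- **Descent**: the properties of the conjecture. -/
theorem desc_four {P : Ideal (MvPolynomial (Fin (N + 1)) ℂ)} [P.IsPrime] {P' : Ideal (MvPolynomial (Fin (M + 1)) ℂ)} [P'.IsPrime] (hP : Homog P)
    {z : Fin 2 → FunField P} (hz : IsTranscendenceBasis ℂ z)
    (hsm : ∀ y : Fin (N + 1) → ℂ, y ≠ 0 → (∀ Q ∈ P, eval y Q = 0) → Module.finrank ℂ (conTan P y) ≤ 3)
    (hgt : IsLogGeneralType (K := FunField P) (k := 2) fun _ => False) (hP' : Homog P')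
    (hz' : ∃ z' : Fin 2 → FunField P', IsTranscendenceBasis ℂ z') {D : ℕ} {γ : Fin (N + 1) → MvPolynomial (Fin (M + 1)) ℂ}
    (hγ : ∀ i, (γ i).IsHomogeneous D) (hdom : ∀ n Q, Q.IsHomogeneous n → (aeval γ Q ∈ P' ↔ Q ∈ P))
    {B : MvPolynomial (Fin (N + 1)) ℂ} {b : ℕ} (hB : B.IsHomogeneous b) (hBP : B ∉ P) {Ξ' : Set (PN M)}
    (hΞ' : ZariskiClosedIn (projVar P') Ξ') (hne' : Ξ' ≠ projVar P')
    (hbr' : ∀ g : ℂ → PN M, HolomorphicInto g Set.univ → (∀ z, g z ∈ projVar P') → (∃ z w, g z ≠ g w) → ∀ z, g z ∈ Ξ')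
    (hlift : ∀ f : ℂ → PN N, HolomorphicInto f Set.univ → OrderTwo f → (∀ z, f z ∈ projVar P) → (∃ z w, f z ≠ f w) →
      (∀ z, VanishesAt B (f z)) ∨ ∃ g : ℂ → PN M, HolomorphicInto g Set.univ ∧ (∀ z, g z ∈ projVar P') ∧ (∃ z, vals γ (g z).rep ≠ 0) ∧
        ∀ z, vals γ (g z).rep ≠ 0 → f z = rmap γ (g z)) : GGLK P := by
  obtain ⟨T, n, hT, hTP, hTv⟩ := desc_form hz hP' hz' hγ hdom hB hBP hΞ' hne' hbr' hlift
  exact ggl_of_orderTwo hP hz hsm hgt hT hTP hTv

end Pool.Agent.H62.Et
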