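import Pool.Agent.H17G.FourG
import Pool.Agent.H7.Bir.Main

/-!
# Et Four: the four properties follow from the degeneracy of the entire curves of order two
-/

set_option autoImplicit false

open MvPolynomial

noncomputable section

namespace Pool.Agent.H62.Et

open Pool.Agent.H17 (PN VanishesAt ZariskiClosedIn HolomorphicInto puncturedDisc)
open Pool.Agent.H62.FC (Homog)
open Pool.Agent.H17LG.Variety (FunField IsLogGeneralType)
open Pool.Agent.H13.SM (conTan)
open Pool.Agent.H13.OT (OrderTwo)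
open Pool.Agent.H14.KB (KobayashiHyperbolicModulo)
open Pool.Agent.H17EF (projVar)
open Pool.Agent.H17G (excG)
open Pool.Agent.H7.Bir (GGL)

variable {N : ℕ}

/-- The properties of the conjecture, with the exceptional set `excG P` (the Zariski closure of the union of the nonconstant entire curves), and the
estimate of the Kobayashi pseudometric. -/
def GGLK (P : Ideal (MvPolynomial (Fin (N + 1)) ℂ)) [P.IsPrime] : Prop :=
  GGL P (excG P) ∧ ∃ (Q : MvPolynomial (Fin (N + 1)) ℂ) (D : ℕ), Q.IsHomogeneous D ∧ (∃ x ∈ projVar P, ¬ VanishesAt Q x) ∧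
    (∀ x ∈ excG P, VanishesAt Q x) ∧ KobayashiHyperbolicModulo (projVar P) Q D

theorem ggl_of_orderTwo {P : Ideal (MvPolynomial (Fin (N + 1)) ℂ)} [P.IsPrime] {z : Fin 2 → FunField P} (hP : Homog P)
    (hz : IsTranscendenceBasis ℂ z)
    (hsm : ∀ y : Fin (N + 1) → ℂ, y ≠ 0 → (∀ Q ∈ P, eval y Q = 0) → Module.finrank ℂ (conTan P y) ≤ 3)
    (hgt : IsLogGeneralType (K := FunField P) (k := 2) fun _ => False) {R : MvPolynomial (Fin (N + 1)) ℂ} {n : ℕ} (hR : R.IsHomogeneous n)
    (hRP : R ∉ P) (hbr : ∀ f : ℂ → PN N, HolomorphicInto f Set.univ → OrderTwo f → (∀ z, f z ∈ projVar P) → (∃ z w, f z ≠ f w) →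
      ∀ z, VanishesAt R (f z)) : GGLK P := by
  obtain ⟨hΞ, hbrody, hpicard, hstr, hkob⟩ := Pool.Agent.H17G.four_of_orderTwo hP hz hsm hgt ⟨R, n, hR, hRP, hbr⟩
  refine ⟨⟨hΞ.1, hΞ.2, ?_, hpicard, hbrody, hstr⟩, hkob⟩
  intro k _ hk
  have h4 := Pool.Agent.H17EF.two_of_basis ⟨z, hz⟩ hk
  subst h4
  exact hgt

end Pool.Agent.H62.Et
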