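import Pool.Agent.H62.Et.Loc

/-!
# Et Lift: entire curves lift to etale coverings

Proof of `holomorphic_of_continuous`.  Let `z₀ : ℂ`, `y₀ = (g z₀).rep`, and `x, τ` from `hp.locSec y₀` (`mk y₀ = g z₀`, `Projectivization.mk_rep`).  `f` has an analytic
lift `φ` near `z₀` and `f z₀ = p (g z₀) = mk x`, so after multiplication by a constant `φ z₀ = x`.  `ψ = τ ∘ φ` is analytic at `z₀` and `ψ z₀ = y₀ ≠ 0`.
For `z` near `z₀`: `mk (ψ z) ∈ projVar P'` and `p (mk (ψ z)) = mk (φ z) = f z` (locSec, `φ z → x`); `g z = mk x'` with `x'` near `y₀` (`pn_near`, continuity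
of `pn ∘ g`), and `p (g z) = f z`; `hp.locInj y₀` gives `g z = mk (ψ z)`.
Proof of `lift_entire`.  `exists_hat`, `exists_lift_top` with `E = pn '' projVar P'` (compact: `isCompact_pn`, `isCompact_iff_compactSpace`; metric, so T2), `Y = pn '' projVar P`,
the continuous map `z ↦ pn (f z)` (`pn_continuous`), then `g z` = the point with `pn (g z)` = the lift, `p (g z) = f z` by `pn_injective`, and
`holomorphic_of_continuous`.
-/

set_option autoImplicit false

open Topology Filter MvPolynomial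

noncomputable section

namespace Pool.Agent.H62.Et

open Pool.Agent.H17 (PN VanishesAt HolomorphicInto)
open Pool.Agent.H62.FC (Homog)
open Pool.Agent.H17EF (projVar)
open Pool.Agent.H62.EF (MN)

variable {N M : ℕ} {P : Ideal (MvPolynomial (Fin (N + 1)) ℂ)} {P' : Ideal (MvPolynomial (Fin (M + 1)) ℂ)} {p : PN M → PN N}

/-- a continuous lift of a holomorphic map is holomorphic -/
theorem holomorphic_of_continuous (hp : IsEtale P P' p) {f : ℂ → PN N} (hf : HolomorphicInto f Set.univ) (hfX : ∀ z, f z ∈ projVar P)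
    {g : ℂ → PN M} (hg : Continuous fun z => pn (g z)) (hgX : ∀ z, g z ∈ projVar P') (hgf : ∀ z, p (g z) = f z) :
    HolomorphicInto g Set.univ := by
  intro z₀ _
  have hy₀ : (g z₀).rep ≠ 0 := Projectivization.rep_nonzero _
  have hmk : Projectivization.mk ℂ (g z₀).rep hy₀ = g z₀ := Projectivization.mk_rep _
  obtain ⟨x, hx, τ, h1, hτ, hτx, hsec⟩ := hp.locSec (g z₀).rep hy₀ (by rw [hmk]; exact hgX z₀)
  obtain ⟨φ, hφ, hφf⟩ := hf z₀ (Set.mem_univ _)
  obtain ⟨hφ0, hφz⟩ := hφf.self_of_nhds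
  have h2 : Projectivization.mk ℂ x hx = Projectivization.mk ℂ (φ z₀) hφ0 := by
    rw [← h1, hmk, hgf, hφz]
  rw [Projectivization.mk_eq_mk_iff'] at h2
  obtain ⟨c, hc⟩ := h2
  have hc0 : c ≠ 0 := by
    rintro rfl
    rw [zero_smul] at hc
    exact hx hc.symm
  have hφ' : AnalyticAt ℂ (fun z => c • φ z) z₀ := AnalyticAt.fun_const_smul hφ
  have hφc : Tendsto (fun z => c • φ z) (𝓝 z₀) (𝓝 x) := by
    have h3 := hφ'.continuousAt.tendsto
    rwa [hc] at h3
  have hτc : Tendsto (fun z => τ (c • φ z)) (𝓝 z₀) (𝓝 (g z₀).rep) := by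
    have h3 := hτ.continuousAt.tendsto
    rw [hτx] at h3
    exact h3.comp hφc
  refine ⟨fun z => τ (c • φ z), ?_, ?_⟩
  · exact hτ.fun_comp_of_eq hφ' hc
  · have hinj := hp.locInj (g z₀).rep hy₀ (by rw [hmk]; exact hgX z₀)
    rw [nhds_prod_eq, Filter.eventually_iff, Filter.mem_prod_self_iff] at hinj
    obtain ⟨U, hU, hUU⟩ := hinj
    obtain ⟨δ, hδ, hnear⟩ := pn_near hy₀ hU
    rw [hmk] at hnear
    have h4 : ∀ᶠ z in 𝓝 z₀, dist (pn (g z)) (pn (g z₀)) < δ :=
      (hg.tendsto z₀).eventually (Metric.ball_mem_nhds _ hδ)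
    filter_upwards [hφf, hφc.eventually hsec, hτc.eventually hU, h4] with z h5 h6 h7 h8
    obtain ⟨h9, h10⟩ := h5
    have h11 : c • φ z ≠ 0 := smul_ne_zero hc0 h9
    have h12 : Projectivization.mk ℂ (c • φ z) h11 = f z := by
      rw [h10, Projectivization.mk_eq_mk_iff']
      exact ⟨c, rfl⟩
    obtain ⟨h13, h14, h15⟩ := h6 h11 (by rw [h12]; exact hfX z)
    obtain ⟨x', hx'U, hx', hx'g⟩ := hnear (g z) h8
    refine ⟨h13, ?_⟩
    rw [hx'g]
    refine hUU (Set.mk_mem_prod hx'U h7) hx' h13 ?_ h14 ?_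
    · rw [← hx'g]
      exact hgX z
    · rw [← hx'g, hgf, h15, h12]

theorem lift_entire (hP' : Homog P') (hp : IsEtale P P' p) {f : ℂ → PN N} (hf : HolomorphicInto f Set.univ)
    (hfX : ∀ z, f z ∈ projVar P) : ∃ g : ℂ → PN M, HolomorphicInto g Set.univ ∧ (∀ z, g z ∈ projVar P') ∧ ∀ z, p (g z) = f z := by
  obtain ⟨ph, hph, hloc, hsurj⟩ := exists_hat hp
  have : CompactSpace (pn '' projVar P') := isCompact_iff_compactSpace.mp (isCompact_pn hP')
  have hfc : Continuous fun z : ℂ => (⟨pn (f z), Set.mem_image_of_mem pn (hfX z)⟩ : pn '' projVar P) :=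
    Continuous.subtype_mk (pn_continuous hf) _
  obtain ⟨G, hG, hGf⟩ := exists_lift_top hloc hsurj hfc
  have hex : ∀ z : ℂ, ∃ y : PN M, y ∈ projVar P' ∧ pn y = (G z : MN M) := fun z => (G z).2
  choose g hgX hgG using hex
  have hgf : ∀ z, p (g z) = f z := by
    intro z
    apply pn_injective
    have h1 := hph (g z) (hgX z)
    have h2 : (⟨pn (g z), Set.mem_image_of_mem pn (hgX z)⟩ : pn '' projVar P') = G z := Subtype.ext (hgG z)
    rw [h2, hGf z] at h1
    exact (congrArg Subtype.val h1).symm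
  refine ⟨g, ?_, hgX, hgf⟩
  refine holomorphic_of_continuous hp hf hfX ?_ hgX hgf
  have h3 : (fun z => pn (g z)) = fun z => (G z : MN M) := funext hgG
  rw [h3]
  exact continuous_subtype_val.comp hG

end Pool.Agent.H62.Et
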