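import Mathlib

/-!
# Et TopA: local homeomorphisms and lifts of continuous maps of the plane

Proof of `isLocalHomeomorph_of_sections`.  Let `e : E`, `s` from `hsec e`, `V` an open neighbourhood of `p e` with `ContinuousAt s y` and `p (s y) = y`
on `V`, `U` an open neighbourhood of `e` with `p e₁ = p e₂ → e₁ = e₂` for `e₁, e₂ ∈ U` (from `hinj e`: `nhds_prod_eq`, `Filter.mem_prod_self_iff`).
`W = {y ∈ V | s y ∈ U}` is open (`s` is continuous on the open set `V`), `U₀ = {e' ∈ U | p e' ∈ W}` is open and contains `e` (`s (p e) = e`).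
For `e' ∈ U₀`: `s (p e') ∈ U` and `p (s (p e')) = p e'`, so `s (p e') = e'`; for `y ∈ W`: `p (s y) = y`, so `s y ∈ U₀`.  So `p` and `s` are inverse
homeomorphisms `U₀ ↔ W`: an `OpenPartialHomeomorph`.
Proof of `exists_lift_top`: `isLocalHomeomorph_iff_isCoveringMap` (Mathlib.Topology.Covering.Basic) and
`IsCoveringMap.existsUnique_continuousMap_lifts` (Mathlib.Topology.Homotopy.Lifting) with `A = ℂ` (simply connected and locally path connected;
`SimplyConnectedSpace ℂ` from `ContractibleSpace`), `a₀ = 0` and any `e₀` over `f 0`.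
-/

set_option autoImplicit false

open Topology Filter

namespace Pool.Agent.H62.Et

/-- A continuous map which is locally injective and has local sections through every point is a local homeomorphism. -/
theorem isLocalHomeomorph_of_sections {E Y : Type} [TopologicalSpace E] [TopologicalSpace Y] {p : E → Y} (hp : Continuous p)
    (hinj : ∀ e : E, ∀ᶠ q in 𝓝 (e, e), p q.1 = p q.2 → q.1 = q.2)
    (hsec : ∀ e : E, ∃ s : Y → E, s (p e) = e ∧ ∀ᶠ y in 𝓝 (p e), ContinuousAt s y ∧ p (s y) = y) : IsLocalHomeomorph p := by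
  refine IsLocalHomeomorph.mk p fun e => ?_
  obtain ⟨s, hse, hs⟩ := hsec e
  obtain ⟨V, hVs, hVo, heV⟩ := eventually_nhds_iff.1 hs
  have h1 : {q : E × E | p q.1 = p q.2 → q.1 = q.2} ∈ 𝓝 e ×ˢ 𝓝 e := by
    rw [← nhds_prod_eq]
    exact hinj e
  obtain ⟨U₁, hU₁, hU₁s⟩ := Filter.mem_prod_self_iff.1 h1
  obtain ⟨U, hUU₁, hUo, heU⟩ := mem_nhds_iff.1 hU₁
  have hU : ∀ e₁ ∈ U, ∀ e₂ ∈ U, p e₁ = p e₂ → e₁ = e₂ := fun e₁ h₁ e₂ h₂ => hU₁s (Set.mk_mem_prod (hUU₁ h₁) (hUU₁ h₂))
  have hsV : ContinuousOn s V := fun y hy => (hVs y hy).1.continuousWithinAt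
  have hW : IsOpen (V ∩ s ⁻¹' U) := hsV.isOpen_inter_preimage hVo hUo
  have hU₀ : IsOpen (U ∩ p ⁻¹' (V ∩ s ⁻¹' U)) := hUo.inter (hW.preimage hp)
  have hleft : ∀ e' ∈ U ∩ p ⁻¹' (V ∩ s ⁻¹' U), s (p e') = e' := fun e' he' =>
    hU _ he'.2.2 _ he'.1 (hVs _ he'.2.1).2
  refine ⟨
    { toFun := p
      invFun := s
      source := U ∩ p ⁻¹' (V ∩ s ⁻¹' U)
      target := V ∩ s ⁻¹' U
      map_source' := fun e' he' => he'.2
      map_target' := fun y hy => by
        refine ⟨hy.2, ?_⟩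
        show p (s y) ∈ V ∩ s ⁻¹' U
        rw [(hVs y hy.1).2]
        exact hy
      left_inv' := hleft
      right_inv' := fun y hy => (hVs y hy.1).2
      open_source := hU₀
      open_target := hW
      continuousOn_toFun := hp.continuousOn
      continuousOn_invFun := hsV.mono Set.inter_subset_left }, ?_, fun x _ => rfl⟩
  refine ⟨heU, heV, ?_⟩
  show s (p e) ∈ U
  rw [hse]
  exact heU

/-- Lifts of maps of the plane through a surjective local homeomorphism with compact source. -/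
theorem exists_lift_top {E Y : Type} [TopologicalSpace E] [TopologicalSpace Y] [T2Space E] [T2Space Y] [CompactSpace E] {p : E → Y}
    (hp : IsLocalHomeomorph p) (hs : Function.Surjective p) {f : ℂ → Y} (hf : Continuous f) :
    ∃ g : ℂ → E, Continuous g ∧ ∀ z, p (g z) = f z := by
  have hc : IsCoveringMap p := isLocalHomeomorph_iff_isCoveringMap.1 hp
  obtain ⟨e₀, he₀⟩ := hs (f 0)
  obtain ⟨F, ⟨-, hF⟩, -⟩ := hc.existsUnique_continuousMap_lifts (⟨f, hf⟩ : C(ℂ, Y)) (0 : ℂ) e₀ he₀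
  exact ⟨F, F.continuous, fun z => congrFun hF z⟩

end Pool.Agent.H62.Et
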