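import Pool.Agent.H62.Et.Four
import Pool.Agent.H62.Et.Lift
import Pool.Agent.H62.Et.Dom
import Pool.Agent.H19OL.Norm

/-!
# Et Main: the properties of the Green–Griffiths–Lang conjecture descend along finite etale coverings of smooth projective surfaces
-/

set_option autoImplicit false

open Topology Filter MvPolynomial

noncomputable section

namespace Pool.Agent.H62.Et

open Pool.Agent.H17 (PN VanishesAt ZariskiClosedIn HolomorphicInto puncturedDisc vanishesAt_mk_iff)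
open Pool.Agent.H62.FC (Homog)
open Pool.Agent.H17LG.Variety (FunField IsLogGeneralType)
open Pool.Agent.H13.SM (conTan)
open Pool.Agent.H17EF (projVar exists_form_of_ne exists_point)
open Pool.Agent.H7.Bir (GGL vals rmap rmap_mk vanishesAt_rmap)

variable {N M : ℕ}

/-- The forms with `T (x) = 0` for all `x = p y` with `R' (y) = 0`. -/
theorem exists_image_form {P : Ideal (MvPolynomial (Fin (N + 1)) ℂ)} [P.IsPrime] {P' : Ideal (MvPolynomial (Fin (M + 1)) ℂ)} [P'.IsPrime]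
    (hP : Homog P) (hP' : Homog P') {z : Fin 2 → FunField P} (hz : IsTranscendenceBasis ℂ z)
    (hz' : ∃ z' : Fin 2 → FunField P', IsTranscendenceBasis ℂ z') {p : PN M → PN N} (hp : IsEtale P P' p) {n' : ℕ}
    {R' : MvPolynomial (Fin (M + 1)) ℂ} (hR' : R'.IsHomogeneous n') (hRP' : R' ∉ P') :
    ∃ (T : MvPolynomial (Fin (N + 1)) ℂ) (n : ℕ), T.IsHomogeneous n ∧ T ∉ P ∧ ∀ y ∈ projVar P', VanishesAt R' y → VanishesAt T (p y) := by
  classical
  obtain ⟨n, D, γ, hγ, hγne, hrep, hcov⟩ := exists_cover hP' hp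
  have hX := Pool.Agent.H17G.nonempty_coord hz
  choose R m hR hRP hRev using fun k => Pool.Agent.H19OL.exists_norm_form ⟨z, hz⟩ hz' (hγ k)
    (dominant hP hP' hX hp (hγ k) (hrep k) (hγne k)) hR' hRP'
  refine ⟨∏ k, R k, ∑ k, m k, MvPolynomial.IsHomogeneous.prod _ _ _ fun k _ => hR k, ?_, ?_⟩
  · intro h
    obtain ⟨k, -, hk⟩ := ((inferInstance : P.IsPrime).prod_mem_iff).1 h
    exact hRP k hk
  · intro y hy hyR
    obtain ⟨k, hk⟩ := hcov y hy
    have h1 : VanishesAt (R k) (p y) := by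
      rw [hrep k y hy hk]
      unfold Pool.Agent.H7.Bir.rmap
      rw [dif_pos hk, vanishesAt_mk_iff (hR k)]
      refine hRev k y.rep y.rep_nonzero (fun Q hQ => ?_) hyR
      rw [← MvPolynomial.sum_homogeneousComponent Q, map_sum]
      exact Finset.sum_eq_zero fun i _ => hy _ (hP' Q hQ i) i (homogeneousComponent_isHomogeneous i Q)
    unfold VanishesAt at h1 ⊢
    rw [map_prod]
    exact Finset.prod_eq_zero (Finset.mem_univ k) h1

/-- The entire curves of `X` are degenerate if the entire curves of the etale covering `X'` are. -/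
theorem etale_form {P : Ideal (MvPolynomial (Fin (N + 1)) ℂ)} [P.IsPrime] {P' : Ideal (MvPolynomial (Fin (M + 1)) ℂ)} [P'.IsPrime] (hP : Homog P)
    {z : Fin 2 → FunField P} (hz : IsTranscendenceBasis ℂ z) (hP' : Homog P')
    (hz' : ∃ z' : Fin 2 → FunField P', IsTranscendenceBasis ℂ z') {p : PN M → PN N} (hp : IsEtale P P' p) {Ξ' : Set (PN M)}
    (hΞ' : ZariskiClosedIn (projVar P') Ξ') (hne' : Ξ' ≠ projVar P')
    (hbr' : ∀ g : ℂ → PN M, HolomorphicInto g Set.univ → (∀ z, g z ∈ projVar P') → (∃ z w, g z ≠ g w) → ∀ z, g z ∈ Ξ') :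
    ∃ (T : MvPolynomial (Fin (N + 1)) ℂ) (n : ℕ), T.IsHomogeneous n ∧ T ∉ P ∧ ∀ f : ℂ → PN N, HolomorphicInto f Set.univ →
      (∀ z, f z ∈ projVar P) → (∃ z w, f z ≠ f w) → ∀ z, VanishesAt T (f z) := by
  obtain ⟨R', n', hR', hRP', hRΞ⟩ := exists_form_of_ne hΞ' hne'
  obtain ⟨T, n, hT, hTP, hTv⟩ := exists_image_form hP hP' hz hz' hp hR' hRP'
  refine ⟨T, n, hT, hTP, fun f hf hfX hfn z => ?_⟩
  obtain ⟨g, hg, hgX, hgf⟩ := lift_entire hP' hp hf hfX
  have hgn : ∃ z w, g z ≠ g w := by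
    obtain ⟨a, b, hab⟩ := hfn
    refine ⟨a, b, fun h => hab ?_⟩
    rw [← hgf a, ← hgf b, h]
  rw [← hgf z]
  exact hTv _ (hgX z) (hRΞ _ (hbr' g hg hgX hgn z))

/-- **Etale coverings.** -/
theorem etale_four {P : Ideal (MvPolynomial (Fin (N + 1)) ℂ)} [P.IsPrime] {P' : Ideal (MvPolynomial (Fin (M + 1)) ℂ)} [P'.IsPrime] (hP : Homog P)
    {z : Fin 2 → FunField P} (hz : IsTranscendenceBasis ℂ z)
    (hsm : ∀ y : Fin (N + 1) → ℂ, y ≠ 0 → (∀ Q ∈ P, eval y Q = 0) → Module.finrank ℂ (conTan P y) ≤ 3)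
    (hgt : IsLogGeneralType (K := FunField P) (k := 2) fun _ => False) (hP' : Homog P')
    (hz' : ∃ z' : Fin 2 → FunField P', IsTranscendenceBasis ℂ z') {p : PN M → PN N} (hp : IsEtale P P' p) {Ξ' : Set (PN M)}
    (hΞ' : ZariskiClosedIn (projVar P') Ξ') (hne' : Ξ' ≠ projVar P')
    (hbr' : ∀ g : ℂ → PN M, HolomorphicInto g Set.univ → (∀ z, g z ∈ projVar P') → (∃ z w, g z ≠ g w) → ∀ z, g z ∈ Ξ') : GGLK P := by
  obtain ⟨T, n, hT, hTP, hTv⟩ := etale_form hP hz hP' hz' hp hΞ' hne' hbr'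
  exact ggl_of_orderTwo hP hz hsm hgt hT hTP fun f hf _ hfX hfn => hTv f hf hfX hfn

end Pool.Agent.H62.Et
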